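import Pool.Agent.helper33.SF.Spec

/-! Row sf:EVN (MP_37e5fa_nt). -/

set_option autoImplicit false

namespace Pool.Agent.SF

theorem EVN : EVN_stmt := by
  intro d a i
  rw [two_mul, pow_add, Pell.Solution₁.x_mul]
  have h := (a ^ i).prop
  linear_combination h

end Pool.Agent.SF
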